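import Pool.Agent.Q283.LQ.Def

/-!
# Project LQ (helper283): Leopoldt's conjecture in quadratic extensions, statements of the parts

GOAL (`S_MAIN`).  `F` any number field, `y` large.  Among the quadratic extensions `L = F(√d)` with given
completions at all places above the rational primes `≤ y` and at infinity, ramified outside exactly at `k` primes
`q 0, .., q (k-1)`, the share with `δ(L) ≥ δ(F) + t` (`δ` = Leopoldt defect at `2`) is at most
`2^(-e) / (2^t - 1) + ε`, `e` = (number of the complex places of `L`) - (number of the complex places of `F`).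
More generally `δ` is the defect at the places dividing an ideal `I ∣ (2)` of `F`, and then `2^(-e)` is replaced by
`2^(∑ cI v - e)`, the sum of the local degrees over the places above `2` which do not divide `I`.

PROOF.  (A) `S_CR1`, `S_CR2L`, `S_CR2`: if `δ(L) ≥ δ(F) + t` there are `2^t - 1` nontrivial classes `a` modulo squares
and `D = - d` which satisfy the local conditions `Cond`.  (B) `S_BASE`: `f ≥ r1 + r2 + #S` units outside `S` (the primes
above rational primes `≤ y`) modulo squares, generators `π q` of the primes outside `S`, the classes modulo the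
subgroup `Nn y` (index `2^(2f)`), reciprocity.  (C) `S_NEST`: the tables of residue symbols of the tuples `q` are
equidistributed.  (D) `S_COUNT`: the mean of the number of the solutions over the tables.  (E) `S_SHARE`.
-/

set_option autoImplicit false

namespace Pool.Agent.Q283.LQ

open NumberField IsDedekindDomain Filter Topology Finset

/-! ## Local theory -/

/-- JOB BAS. Elementary properties of `Lsq` and `Od`.
Proof.  (1) `Lsq` with `n = 0`: `v(a x² - 1) < 1`, so `v(a x²) = 1`; the valuation of `x²` is even.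
(2) `(a x² - 1) (b z²) + (b z² - 1) = a b (x z)² - 1`, and `v(b z²) = 1`.  (3) `x = a⁻¹`.  (4) parity of the
exponents.  (5) Newton iteration inside `F`: write `a x² = 1 + 4 m`, `v(m) < 1` (divide by `4`).  With
`z = 1 - 2 m`: `(1 + 4 m) z² = 1 + 4 m'`, `m' = - 3 m² + 4 m³`, `v(m') ≤ v(m)²` (the coefficients are integers).
As `v(m) = exp(-j)`, `j ≥ 1` (or `m = 0`), after enough steps `v(4 m') < exp(-n)`.
(6) `v` odd: multiply `a` and `b` by squares so that `v(a) = v(b) = 1`; choose integral representatives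
(elements of `𝓞 F` not in `v`, modulo `v`).  In the finite field `𝓞 F / v` of odd order the product of two
non-squares is a square, so `v(a b x² - 1) < 1 = v(4)` for some `x`, and (5); if `a` is a square modulo `v` then
`Lsq v a` by (5). -/
def S_BAS : Prop := ∀ (F : Type) [Field F] [NumberField F] (v : HeightOneSpectrum (𝓞 F)),
  (∀ a : F, Lsq v a → a ≠ 0 ∧ ¬ Od v a) ∧
  (∀ a b : F, Lsq v a → Lsq v b → Lsq v (a * b)) ∧
  (∀ a : F, a ≠ 0 → Lsq v (a ^ 2)) ∧
  (∀ a b : F, a ≠ 0 → b ≠ 0 → (Od v (a * b) ↔ (Od v a ↔ ¬ Od v b))) ∧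
  (∀ a x : F, v.valuation F (a * x ^ 2 - 1) < v.valuation F 4 → Lsq v a) ∧
  (¬ Dy v → ∀ a b : F, a ≠ 0 → b ≠ 0 → ¬ Od v a → ¬ Od v b → ¬ Lsq v a → ¬ Lsq v b → Lsq v (a * b))

/-- JOB LOC (uses `S_BAS`). The number of the classes modulo `Nn y`.
Proof.  `S = {v | Sm y v}` is finite.  The map `b ↦ (class of b modulo {Lsq v})_(v ∈ S), signs` is injective on
`B`, so it suffices that a set of nonzero elements, pairwise with `¬ Lsq v (b b')`, has at most
`4 = 2 * 2` elements if `v` is odd and at most `2 * 2 * (N v)^e` elements if `v` is above `2`, `e` the ramification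
index (`v(2) = exp(-e)`); `∏_(v above 2) (N v)^e = 2^[F : ℚ]` (`∑ e f = [F : ℚ]`), and there are
`nrRealPlaces` signs.  One factor `2` is the parity of `v(b)`.  If the `b` have even valuation multiply them by
squares (take `b, b'` to `v(b) = v(b') = 1`) and consider the finite group `G = (𝓞 F / v^(3e))ˣ` (`(𝓞 F / v)ˣ` if `v` is
odd, i.e. `e = 0`: replace `3 e` by `max 1 (3 e)`): if `b b'` is a square modulo `v^(3e)` then `Lsq v (b b')` by
`S_BAS` (5) (`v(4) = exp(-2e)`, `3 e > 2 e`), so their number is at most `|G / G²| = |G[2]|`.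
`v` odd: `G` is cyclic, `|G[2]| ≤ 2`.  `v` above `2`: `z² = 1` in `𝓞 F / v^(3e)`, `z = 1 + t`, `t (t + 2) ∈ v^(3e)`:
if `v(t) > v(2)` (as numbers: `t` has order `< e`) then `t + 2` has the same order `< e`, contradiction; so the
order of `t` is `≥ e`, one of `t`, `t + 2` has order exactly `e` or both have larger.. in all cases one of them has
order `≥ 2 e`; so `z` lies in one of the two classes `1`, `-1` modulo `v^(2e)`, each consists of `(N v)^e`
elements modulo `v^(3e)`. -/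
def S_LOC : Prop := ∀ (F : Type) [Field F] [NumberField F] (y : ℕ), 2 ≤ y →
  {v : HeightOneSpectrum (𝓞 F) | Sm y v}.Finite ∧
  ∀ B : Finset F, (∀ b ∈ B, b ≠ 0) → (∀ b ∈ B, ∀ b' ∈ B, b ≠ b' → ¬ Nn y (b * b')) →
    B.card ≤ 2 ^ (2 * nS F y + Module.finrank ℚ F + InfinitePlace.nrRealPlaces F)

/-! ## Global theory -/

/-- JOB SU. Units outside `S`, `S` the primes above rational primes `≤ y`.
Proof.  `y0 ≥ 2` so large that every ideal class contains a nonzero ideal whose prime factors lie above rational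
primes `≤ y0` (finite class group).  (1) `q * I` is principal for such an `I`: `(p) = q I`.  (2) `(a) = J² I'` with a
fractional ideal `J` prime to `S` and `I'` composed of primes of `S`; `J I''= (x⁻¹)` with `I''` composed of primes of
`S`.  (3) Let `G` be the group of the `a ∈ F^*` with `v(a) = 1` for all `v ∉ S`.  The map `G → ℤ^S` (valuations) has
kernel `𝓞ˣ`, finitely generated (Dirichlet), so `G` is finitely generated; its image contains `h ℤ^S` (`v^h` is
principal, `h` the class number), so `G` has rank `(r1 + r2 - 1) + #S`; its torsion subgroup is finite of even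
order (it contains `-1`), so `G / G²` is a vector space over `F_2` of finite dimension `f ≥ r1 + r2 + #S`.  `u` =
representatives of a basis; if `mon u c = x²` with `x ∈ F` then `x ∈ G`.  (4) from (2). -/
def S_SU : Prop := ∀ (F : Type) [Field F] [NumberField F], ∃ y0 : ℕ, ∀ y, y0 ≤ y →
  (∀ q : HeightOneSpectrum (𝓞 F), ¬ Sm y q → ∃ p : F, q.valuation F p = WithZero.exp (-1 : ℤ) ∧
    ∀ v : HeightOneSpectrum (𝓞 F), ¬ Sm y v → v ≠ q → v.valuation F p = 1) ∧
  (∀ a : F, a ≠ 0 → (∀ v : HeightOneSpectrum (𝓞 F), ¬ Sm y v → ¬ Od v a) →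
    ∃ x : F, x ≠ 0 ∧ ∀ v : HeightOneSpectrum (𝓞 F), ¬ Sm y v → v.valuation F (a * x ^ 2) = 1) ∧
  ∃ (f : ℕ) (u : Fin f → F),
    InfinitePlace.nrRealPlaces F + InfinitePlace.nrComplexPlaces F + nS F y ≤ f ∧
    (∀ l, u l ≠ 0 ∧ ∀ v : HeightOneSpectrum (𝓞 F), ¬ Sm y v → v.valuation F (u l) = 1) ∧
    (∀ c : Fin f → ZMod 2, IsSquare (mon u c) → c = 0) ∧
    ∀ a : F, a ≠ 0 → (∀ v : HeightOneSpectrum (𝓞 F), ¬ Sm y v → ¬ Od v a) →
      ∃ c : Fin f → ZMod 2, IsSquare (a * mon u c)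

/-- JOB REC. Quadratic reciprocity over `F`.
Proof.  This follows from the results of project EB (`Pool/Agent/Q51/EB/All.lean`): `f ∈ ℤ[X]` irreducible with
`F ≅ ℚ[X]/(f)`, `θ` a root in `F` (`Setup f F θ`), `β(θ) = b`, `γ(θ) = c`.  Product formula `t_pfc : S_PFC`: the
number of the places of `ℚ` with `cor(β, γ) = -1` is even.  Let `B` be the number of `t_tr : S_TR`, `y0 ≥ B`.
Primes `l ≤ y` and the real place: `b` is a square in `ℚ_l[X]/(f)`, resp. `ℝ[X]/(f)` (see `S_APX`, `S_APXR` and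
their proofs `Q58.EB.apx`, `Q58.EB.apxr`; by the Chinese remainder theorem there is one `x ∈ F` such that
`b x² - 1` is very divisible by `l`, and `1 + 4 l z` is a square for integral `z`), so `cor(β, γ) = cor(1, γ) = 1`
(`t_corp : S_CORP` (1), (2), (4)).  Primes `l > y`: `cor` is symmetric; say `c` is a unit above `l`.  `S_NRM`
(`Q247.EB.nrm`) normalises the valuations of `b` above `l` to `exp(-1)` (odd ones) and `1` (even ones), by a
square.  `cor(β, γ) = hw(gram(βγ)) hw(gram β) hw(gram γ) hw(gram 1) hs(N β, N γ)`; `S_TR` for `(β, γ)` and for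
`(1, γ)`: `= hs(N γ, l)^m ∏_(v ∈ T) sg v c * hs(N β, N γ)`, and `N β` is `l^m` times a unit (up to a square), `N γ` a
unit, so `hs(N β, N γ) = hs(l, N γ)^m`; so `cor(β, γ) = ∏_(v ∈ T) sg v c`, `T` = the primes above `l` where
`v(b)` is odd.  `sg v c = -1` iff `¬ Lsq v c` (`S_BAS` (5), `v` odd).  Multiply over all `l > y`. -/
def S_REC : Prop := ∀ (F : Type) [Field F] [NumberField F], ∃ y0 : ℕ, ∀ y, y0 ≤ y → ∀ b c : F, b ≠ 0 → c ≠ 0 →
  (∀ l : ℕ, l.Prime → y < l →
    (∀ v : HeightOneSpectrum (𝓞 F), (l : 𝓞 F) ∈ v.asIdeal → v.valuation F b = 1) ∨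
    (∀ v : HeightOneSpectrum (𝓞 F), (l : 𝓞 F) ∈ v.asIdeal → v.valuation F c = 1)) →
  Nn y b →
  Even (Nat.card {v : HeightOneSpectrum (𝓞 F) // ¬ Sm y v ∧ Od v b ∧ ¬ Lsq v c} +
    Nat.card {v : HeightOneSpectrum (𝓞 F) // ¬ Sm y v ∧ Od v c ∧ ¬ Lsq v b})

/-- JOB CHEB. Chebotarev's theorem for quadratic residue symbols over `F`, natural density.
Proof.  `ChebK` (`Pool/Agent/W401/Cheb/AbsDefs.lean`; proved, e.g. `Pool/Agent/H747R2/ChebK.lean` or
`Pool/Agent/H788R2/Cheb/Facts.lean`; search for it) for the open normal subgroup `U` of the elements of the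
absolute Galois group which fix all `√(a i)`; `G/U` has `2^m` elements since the `a i` are independent modulo
squares (Kummer theory; the characters `χ_c(σ) = ∏ (σ√(a i)/√(a i))^(c i)`, `c ≠ 0`, are nontrivial).  For `v` odd
with even valuations of the `a i` a Frobenius element at `v` fixes `√(a i)` iff `Lsq v (a i)` (`S_BAS` (5)); the other
`v` are finitely many, and the number of all `v` of norm `≤ X` tends to infinity. -/
def S_CHEB : Prop := ∀ (F : Type) [Field F] [NumberField F] (m : ℕ) (a : Fin m → F), (∀ i, a i ≠ 0) →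
  (∀ c : Fin m → ZMod 2, IsSquare (mon a c) → c = 0) → ∀ e : Fin m → ZMod 2,
  Tendsto (fun X : ℕ =>
    ({v : HeightOneSpectrum (𝓞 F) | Ideal.absNorm v.asIdeal ≤ X ∧ ∀ i, sb v (a i) = e i}.ncard : ℝ) /
      ({v : HeightOneSpectrum (𝓞 F) | Ideal.absNorm v.asIdeal ≤ X}.ncard : ℝ)) atTop (𝓝 (1 / 2 ^ m))

section F

variable {F : Type} [Field F] [NumberField F]

/-- bases of the units outside `S` modulo squares and of the classes modulo `Nn y`, and generators of the primes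
outside `S` (`S` the primes above rational primes `≤ y`) -/
structure Base (y f : ℕ) (u r : Fin f → F) (π : HeightOneSpectrum (𝓞 F) → F)
    (g : (Fin f → ZMod 2) → (Fin f → ZMod 2) → ZMod 2) : Prop where
  two : 2 ≤ y
  ue : ∀ l, u l ≠ 0
  re : ∀ l, r l ≠ 0
  uo : ∀ l v, ¬ Sm y v → ¬ Od v (u l)
  ind : ∀ c : Fin f → ZMod 2, IsSquare (mon u c) → c = 0
  full : ∀ a : F, a ≠ 0 → (∀ v : HeightOneSpectrum (𝓞 F), ¬ Sm y v → ¬ Od v a) →
    ∃ c : Fin f → ZMod 2, IsSquare (a * mon u c)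
  po : ∀ q, ¬ Sm y q → π q ≠ 0 ∧ ∀ v, ¬ Sm y v → (Od v (π q) ↔ v = q)
  cls : ∀ b : F, b ≠ 0 → ∃! p : (Fin f → ZMod 2) × (Fin f → ZMod 2), Nn y (b * mon r p.1 * mon u p.2)
  pc : ∀ q, ¬ Sm y q → Nn y (π q * mon r (fun l => sb q (u l)))
  rcp : ∀ q q', ¬ Sm y q → ¬ Sm y q' → Ap q q' →
    sb q' (π q) + sb q (π q') = g (fun l => sb q (u l)) (fun l => sb q' (u l))

/-- the first half of `Base` -/
structure Bas1 (y f : ℕ) (u r : Fin f → F) (p : HeightOneSpectrum (𝓞 F) → F) : Prop where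
  two : 2 ≤ y
  ue : ∀ l, u l ≠ 0
  re : ∀ l, r l ≠ 0
  uv : ∀ (l : Fin f) (v : HeightOneSpectrum (𝓞 F)), ¬ Sm y v → v.valuation F (u l) = 1
  ind : ∀ c : Fin f → ZMod 2, IsSquare (mon u c) → c = 0
  full : ∀ a : F, a ≠ 0 → (∀ v : HeightOneSpectrum (𝓞 F), ¬ Sm y v → ¬ Od v a) →
    ∃ c : Fin f → ZMod 2, IsSquare (a * mon u c)
  pv : ∀ q : HeightOneSpectrum (𝓞 F), ¬ Sm y q → q.valuation F (p q) = WithZero.exp (-1 : ℤ) ∧
    ∀ v : HeightOneSpectrum (𝓞 F), ¬ Sm y v → v ≠ q → v.valuation F (p q) = 1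
  cls : ∀ b : F, b ≠ 0 → ∃! x : (Fin f → ZMod 2) × (Fin f → ZMod 2), Nn y (b * mon r x.1 * mon u x.2)
  pcl : ∀ q : HeightOneSpectrum (𝓞 F), ¬ Sm y q → ∃ c : Fin f → ZMod 2, Nn y (p q * mon r (fun l => sb q (u l)) * mon u c)

end F

/-- JOB BAS1 (uses `S_BAS`, `S_LOC`, `S_SU`, `S_REC`, `S_CHEB`).
Proof.  `u` from `S_SU` (3), `p` from `S_SU` (1).  For `b ≠ 0` let `ψ_b(l) = #{v ∉ S : Od v b, ¬Lsq v (u l)}` modulo `2`
(`ψ_b(l) = ∑` over `v` of `sb v (u l)`); `ψ` is a homomorphism (`Od v (b b')` iff exactly one of `Od v b`, `Od v b'`),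
`ψ_b = 0` if `Nn y b` (`S_REC` with `c = u l`) or `b = mon u c`; `ψ_(p q) (l) = sb q (u l)`.  For every `φ` there are
infinitely many primes `q` with `sb q (u l) = φ l` for all `l` (`S_CHEB`); `r l` = `p q` for one with `φ = e_l`, so
`ψ_(mon r φ) = φ`.  If `Nn y (mon u c)` then `c = 0`: `S_REC` with `b = mon u c`, `c = p q` gives
`Lsq q (mon u c)` for all `q ∉ S`, contradicting `S_CHEB` if `c ≠ 0` (for `q ∉ S`, an odd prime,
`sb q (mon u c) = ∑ c_l sb q (u l)` by `S_BAS` (2), (6)).  So the `2^(2f)` elements `mon r φ * mon u c` are pairwise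
inequivalent modulo `Nn y` (apply `ψ`), and by `S_LOC` and `2 #S + n + r1 = 2 (#S + r1 + r2) ≤ 2 f` every `b` is
equivalent to exactly one of them (`cls`; `Nn y` is closed under products and contains the squares).  `pcl`: the class
`(φ, c)` of `p q` has `φ = ψ_(p q)`. -/
def S_BAS1 : Prop := ∀ (F : Type) [Field F] [NumberField F], ∃ y0 : ℕ, ∀ y, y0 ≤ y →
  ∃ (f : ℕ) (u r : Fin f → F) (p : HeightOneSpectrum (𝓞 F) → F), Bas1 y f u r p ∧
    InfinitePlace.nrRealPlaces F + InfinitePlace.nrComplexPlaces F + nS F y ≤ f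

/-- JOB BASE (uses `S_BAS`, `S_BAS1`, `S_REC`, `S_CHEB`).
Proof.  `π q = p q * mon u c` with `c` as in `Bas1.pcl`, so that the class of `π q` is `(φ, 0)`, `φ l = sb q (u l)`;
`π q` has valuation `exp(-1)` at `q` and `1` at the other `v ∉ S` (exactly).  Reciprocity: let
`G(q, q') = sb q' (π q) + sb q (π q')`.  If `q1, q2` have the same symbols `φ` and `Ap q1 q'`, `Ap q2 q'` then
`G(q1, q') = G(q2, q')`: `b = π q1 * π q2` satisfies `Nn y b`, apply `S_REC` to `b` and `c = π q'` (every `l > y` is not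
below `q'` or not below `q1, q2`; the case `q1 = q2` is trivial; `sb q' (π q1 π q2) = sb q' (π q1) + sb q' (π q2)` by
`S_BAS` (2), (6)).  `g φ φ'` = `G(q, q')` for one pair with these symbols and `Ap q q'`; another pair `q1, q1'`:
choose `q2` with symbols `φ`, `Ap q2 q'`, `Ap q2 q1'` (infinitely many choices by `S_CHEB`, finitely many excluded):
`G(q, q') = G(q2, q') = G(q2, q1') = G(q1, q1')` (`G` is symmetric). -/
def S_BASE : Prop := ∀ (F : Type) [Field F] [NumberField F], ∃ y0 : ℕ, ∀ y, y0 ≤ y →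
  ∃ (f : ℕ) (u r : Fin f → F) (π : HeightOneSpectrum (𝓞 F) → F)
    (g : (Fin f → ZMod 2) → (Fin f → ZMod 2) → ZMod 2), Base y f u r π g ∧
    InfinitePlace.nrRealPlaces F + InfinitePlace.nrComplexPlaces F + nS F y ≤ f

section F2

variable {F : Type} [Field F] [NumberField F]

/-- the local conditions at the primes above rational primes `≤ y` and at infinity -/
structure CondS (A : HeightOneSpectrum (𝓞 F) → F → F → Prop) (y : ℕ) (D a : F) : Prop where
  ne : a ≠ 0
  even : ∀ v : HeightOneSpectrum (𝓞 F), Sm y v → ¬ Dy v → ¬ Od v D → ¬ Od v a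
  odd : ∀ v : HeightOneSpectrum (𝓞 F), Sm y v → ¬ Dy v → Od v D → Lsq v a ∨ Lsq v (a * D)
  two : ∀ v : HeightOneSpectrum (𝓞 F), Dy v → A v D a
  real : ∀ φ : F →+* ℝ, 0 < φ D → 0 < φ a

end F2

/-- JOB AA (uses `S_BAS`). The number of the classes with the local conditions at `S`.
Proof.  For `v ∈ S = {v | Sm y v}` (finite) the elements `b ∈ B` have at most `2 ^ (c v + 1)` classes modulo the squares
at `v` (`Lsq v (b b')`, an equivalence relation on nonzero elements by `S_BAS` (2), (3)): `v` above `2`: `Loc.num`;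
`v` odd, `v(D)` even: all `b` have even valuation, `S_BAS` (6): two classes; `v(D)` odd: `b` or `b D` is `Lsq`, two
classes.  At `φ` with `φ D > 0` all `b` are positive, at `φ` with `φ D < 0` there are two signs.  If `b, b'` have the same
class at all `v ∈ S` and the same signs then `Nn y (b b')`.  So `#B ≤ ∏_(v ∈ S) 2 ^ (c v + 1) * 2 ^ #{φ D < 0}`
(map `B` to the product of the sets of classes; induction over `S` or choose for every `v` representatives in `B`).
`Sm y v` for `v` above `2` as `2 ≤ y`; `c v = 0` for the other `v`, the support of `c` is finite. -/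
def S_AA : Prop := ∀ (F : Type) [Field F] [NumberField F] (A : HeightOneSpectrum (𝓞 F) → F → F → Prop)
  (c : HeightOneSpectrum (𝓞 F) → ℕ),
  Loc A c → ∀ (y : ℕ) (D : F), 2 ≤ y → D ≠ 0 → {v : HeightOneSpectrum (𝓞 F) | Sm y v}.Finite →
  ∀ B : Finset F, (∀ b ∈ B, CondS A y D b) → (∀ b ∈ B, ∀ b' ∈ B, b ≠ b' → ¬ Nn y (b * b')) →
  B.card ≤ 2 ^ (nS F y + (∑ᶠ v, c v) + Nat.card {φ : F →+* ℝ // φ D < 0})

/-! ## Tables -/

/-- tables: `f` symbols for each of the `k` primes and one symbol for each pair -/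
abbrev Tab (f k : ℕ) : Type :=
  (Fin k → Fin f → ZMod 2) × ({p : Fin k × Fin k // p.1 < p.2} → ZMod 2)

/-- the symbol of the `i`-th prime at the `j`-th prime -/
def Mt {f k : ℕ} (g : (Fin f → ZMod 2) → (Fin f → ZMod 2) → ZMod 2) (τ : Tab f k) (i j : Fin k) : ZMod 2 :=
  if h : i < j then τ.2 ⟨(i, j), h⟩ else if h : j < i then τ.2 ⟨(j, i), h⟩ + g (τ.1 j) (τ.1 i) else 0

/-- the scalar product -/
def dot {f : ℕ} (a b : Fin f → ZMod 2) : ZMod 2 := ∑ l, a l * b l

/-- `(c, J)` is a nontrivial solution for the table `τ` (`a = mon u c * ∏_(j ∈ J) π_j`, `D = mon u w * ∏ π_j`) -/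
def IsSol {f k : ℕ} (g : (Fin f → ZMod 2) → (Fin f → ZMod 2) → ZMod 2) (w : Fin f → ZMod 2)
    (E : Finset ((Fin f → ZMod 2) × (Fin f → ZMod 2))) (τ : Tab f k) (c : Fin f → ZMod 2)
    (J : Finset (Fin k)) : Prop :=
  (∀ j ∈ J, (j : ℕ) ≠ 0) ∧ (c ≠ 0 ∨ J.Nonempty) ∧ (∑ j ∈ J, τ.1 j, c) ∈ E ∧
    (∀ j, j ∉ J → dot (τ.1 j) c + ∑ i ∈ J, Mt g τ i j = 0) ∧
    ∀ j, j ∈ J → dot (τ.1 j) (c + w) + ∑ i ∈ Jᶜ, Mt g τ i j = 0

open Classical in
/-- JOB COUNT. The mean number of solutions (only Mathlib).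
Proof.  Exchange the sums.  `J = ∅`: `c ≠ 0` and `dot (φ_j) c = 0` for all `j`: `φ_1, .., φ_(k-1)` are free in a
hyperplane and `φ_0` is determined by the sum: share `≤ 2^(-(k-1))` for each of the at most `2^f` vectors `c`.
`J ≠ ∅`, `0 ∉ J`, `j0 = min J`: (a) the share of the `(φ_j)` with `∑ φ_j = ψ` and `∑_J φ_j = ψ'` is `2^(-f)` (`J` and its
complement are nonempty), so the sum over `c` of the shares with `(∑_J φ, c) ∈ E` is `#E / 2^f`.  (b) For given `φ`, `c`
the share of the entries `m` which satisfy the conditions for all `j ≠ j0` is `2^(-(k-1))` (at most, drop the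
condition at `j0`): the condition at `j` has its own variable: `m_(j, j0)` if `j < j0`, `m_(j0, j)` if `j > j0`, `j ∉ J`,
`m_(0, j)` if `j > j0`, `j ∈ J`; it occurs with coefficient `1`.  The conditions at `j ≠ 0, j0` contain no other of
these variables (such a condition contains only variables of pairs `{i, j}` with exactly one element in `J`; own
variables are those of the pairs `{j0, j}`, `j ∉ J`, and `{0, j}`, `j ∈ J \ j0`), so choose the variables that are
not own ones, then the own variables of the `j ≠ 0, j0`, then the own variable `m_(0, j0)` of the condition at `0`.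
There are `2^(k-1) - 1` sets `J`. -/
def S_COUNT : Prop := ∀ (f k : ℕ), 1 ≤ k → ∀ (g : (Fin f → ZMod 2) → (Fin f → ZMod 2) → ZMod 2)
  (w ψ : Fin f → ZMod 2) (E : Finset ((Fin f → ZMod 2) × (Fin f → ZMod 2))),
  (∑ τ ∈ univ.filter (fun τ : Tab f k => ∑ j, τ.1 j = ψ),
      (((univ : Finset ((Fin f → ZMod 2) × Finset (Fin k))).filter
        (fun p => IsSol g w E τ p.1 p.2)).card : ℝ)) ≤
    ((E.card : ℝ) / 2 ^ f + 2 ^ f * 2 / 2 ^ k) *
      ((univ.filter (fun τ : Tab f k => ∑ j, τ.1 j = ψ)).card : ℝ)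

section F3

variable {F : Type} [Field F] [NumberField F]

/-- the tuple `q` has the table `τ` (and no two of the `q i` lie above the same rational prime) -/
def Tb {f k : ℕ} (u : Fin f → F) (π : HeightOneSpectrum (𝓞 F) → F) (τ : Tab f k)
    (q : Fin k → HeightOneSpectrum (𝓞 F)) : Prop :=
  (∀ j l, sb (q j) (u l) = τ.1 j l) ∧
  (∀ p : {p : Fin k × Fin k // p.1 < p.2}, sb (q p.1.2) (π (q p.1.1)) = τ.2 p) ∧
  ∀ i j, i ≠ j → Ap (q i) (q j)

end F3

/-- JOB NEST (uses `S_CHEB`, `S_BAS` (4)). Equidistribution of the tables.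
Proof.  Induction on `k`.  `Box y (snoc X x)` consists of the `snoc q v`, `q ∈ Box y X`, `¬ Sm y v`, `v ≠ q i`,
`N v ≤ x`.  For fixed `q` the elements `u l`, `π (q i)` are independent modulo squares (`Base.ind`; odd valuations at
`q i`, `Base.po`), so by `S_CHEB` the share of the `v` with the `f + k` prescribed symbols tends to `2^(-(f+k))`
(finitely many `v` are excluded by `Sm y v`, `v = q i`, `¬ Ap`, and the number of the `v` tends to infinity).
`Box y X` is finite (finitely many primes of bounded norm).  `(k+1) f + (k+1) k / 2 = k f + k (k-1)/2 + (f + k)`. -/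
def S_NEST : Prop := ∀ (F : Type) [Field F] [NumberField F] (y f : ℕ) (u r : Fin f → F)
  (π : HeightOneSpectrum (𝓞 F) → F) (g : (Fin f → ZMod 2) → (Fin f → ZMod 2) → ZMod 2),
  Base y f u r π g → ∀ (k : ℕ) (τ : Tab f k) (ε : ℝ), 0 < ε → Nest k fun X =>
    (Box y X : Set (Fin k → HeightOneSpectrum (𝓞 F))).Finite ∧
    0 < ((Box y X : Set (Fin k → HeightOneSpectrum (𝓞 F))).ncard : ℝ) ∧
    |({q ∈ (Box y X : Set (Fin k → HeightOneSpectrum (𝓞 F))) | Tb u π τ q}.ncard : ℝ) /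
      ((Box y X : Set (Fin k → HeightOneSpectrum (𝓞 F))).ncard : ℝ) -
        1 / 2 ^ (k * f + k * (k - 1) / 2)| ≤ ε

/-- JOB SH1 (uses `S_BAS`). When does some `D` fit?
Proof.  `→`: `D * ∏ π (q j)` has even valuations outside `S` (`Fits.ram`, `Base.po`, `q` injective), so
`D * (∏ π (q j)) * mon u c` is a square for some `c` (`Base.full`); with `Base.pc` (and `mon r` multiplicative up to
squares; `Nn y` closed under products, contains the nonzero squares) `Nn y (D * mon r (∑ φ_j) * mon u c)`; `Nn y (D * D0)` by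
`Fits.loc`, `Fits.real`; so `Nn y (D0 * mon r (∑ φ_j) * mon u c)` and by the uniqueness in `Base.cls` `∑ φ_j = ψ`,
`c = w`.  `←`: `D = mon u w * ∏ π (q j)`. -/
def S_SH1 : Prop := ∀ (F : Type) [Field F] [NumberField F] (y f : ℕ) (u r : Fin f → F)
  (π : HeightOneSpectrum (𝓞 F) → F) (g : (Fin f → ZMod 2) → (Fin f → ZMod 2) → ZMod 2),
  Base y f u r π g → ∀ (D0 : F) (ψ w : Fin f → ZMod 2), D0 ≠ 0 → Nn y (D0 * mon r ψ * mon u w) →
  ∀ (k : ℕ) (q : Fin k → HeightOneSpectrum (𝓞 F)), Function.Injective q → (∀ i, ¬ Sm y (q i)) →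
  ∀ τ : Tab f k, Tb u π τ q →
  ((∃ D, Fits y D0 q D) ↔ ∑ j, τ.1 j = ψ) ∧
  ∀ D, Fits y D0 q D → IsSquare (D * mon u w * ∏ j, π (q j))

open Classical in
/-- JOB SH2 (uses `S_BAS`, `S_SH1`). The solutions of the table.
Proof.  Let `a` satisfy `Cond A D a`; so does `a * D` (`Loc.clo`, ..); replace `a` by `a * D` if `Od (q 0) a` (`D` has odd
valuation at `q 0`).  `J = {j | Od (q j) a}`, `a = mon u c * ∏_J π (q j)` up to squares for some `c` (`Base.full`;
`Cond.even` for the `v ∉ S` different from all `q j`).  The class of `a` is `(∑_J φ_j, c)` (`Base.pc`), it lies in `E` since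
`CondS A y D0 a` (`D D0` is `Lsq` at `S`, `Loc.inv`, `S_BAS`).  `j ∉ J`: `Lsq (q j) a` (`Cond.odd`; `a D` has odd
valuation), that is `dot φ_j c + ∑_(i ∈ J) Mt = 0` (`S_BAS` (2), (6): `sb (q j)` is additive on elements of even
valuation; `sb (q j) (π (q i)) = Mt g τ i j` by the table, for `i > j` by `Base.rcp`); `j ∈ J`: `Lsq (q j) (a D)`, and
`a D = mon u (c + w) * ∏_(i ∉ J) π (q i)` up to squares (`S_SH1`).  `(c, J) ≠ (0, ∅)` since `a` is not a square.
Elements `a i` with different classes modulo squares and `D` give different `(c, J)`. -/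
def S_SH2 : Prop := ∀ (F : Type) [Field F] [NumberField F] (y f : ℕ) (u r : Fin f → F)
  (π : HeightOneSpectrum (𝓞 F) → F) (g : (Fin f → ZMod 2) → (Fin f → ZMod 2) → ZMod 2),
  Base y f u r π g → ∀ (A : HeightOneSpectrum (𝓞 F) → F → F → Prop) (c : HeightOneSpectrum (𝓞 F) → ℕ),
  Loc A c → ∀ (D0 : F) (ψ w : Fin f → ZMod 2), D0 ≠ 0 → Nn y (D0 * mon r ψ * mon u w) →
  ∀ (k : ℕ) (q : Fin k → HeightOneSpectrum (𝓞 F)), 1 ≤ k → Function.Injective q → (∀ i, ¬ Sm y (q i)) →
  ∀ τ : Tab f k, Tb u π τ q → ∀ E : Finset ((Fin f → ZMod 2) × (Fin f → ZMod 2)),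
  (∀ a p, CondS A y D0 a → Nn y (a * mon r p.1 * mon u p.2) → p ∈ E) →
  ∀ (D : F) (N : ℕ), Fits y D0 q D → Many A D N →
  N ≤ ((univ : Finset ((Fin f → ZMod 2) × Finset (Fin k))).filter
        (fun p => IsSol g w E τ p.1 p.2)).card

/-- JOB EE (uses `S_AA`, `S_BAS`). The local classes.
Proof.  `E` = the set of the classes `p` (`Base.cls`) of the `a` with `CondS A y D0 a` (`Finset.univ.filter`).  Choose one
`a_p` for every `p ∈ E`; `Nn y (a_p a_p')` implies `p = p'`; `S_AA`: `#E ≤ 2^(#S + C + neg)`, `C = ∑ c v`, and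
`#S + neg + ex D0 ≤ f`, since `r1 = neg + #{0 < φ D0}` is the number of the `φ : F →+* ℝ` (`= nrRealPlaces F`), `φ D0 ≠ 0`. -/
def S_EE : Prop := ∀ (F : Type) [Field F] [NumberField F] (y f : ℕ) (u r : Fin f → F)
  (π : HeightOneSpectrum (𝓞 F) → F) (g : (Fin f → ZMod 2) → (Fin f → ZMod 2) → ZMod 2),
  Base y f u r π g → InfinitePlace.nrRealPlaces F + InfinitePlace.nrComplexPlaces F + nS F y ≤ f →
  {v : HeightOneSpectrum (𝓞 F) | Sm y v}.Finite →
  ∀ (A : HeightOneSpectrum (𝓞 F) → F → F → Prop) (c : HeightOneSpectrum (𝓞 F) → ℕ), Loc A c →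
  ∀ D0 : F, D0 ≠ 0 → ∃ E : Finset ((Fin f → ZMod 2) × (Fin f → ZMod 2)),
    (∀ a p, CondS A y D0 a → Nn y (a * mon r p.1 * mon u p.2) → p ∈ E) ∧
    (E.card : ℝ) / 2 ^ f ≤ 2 ^ (∑ᶠ v, c v) * (1 / 2 : ℝ) ^ ex D0

/-- JOB SHARE (uses `S_BASE`, `S_LOC`, `S_SH1`, `S_SH2`, `S_EE`, `S_COUNT`, `S_NEST`).
Proof.  Let `(ψ, w)` be the class of `D0` (`Base.cls`), `E` from `S_EE`, `μ = 2^C (1/2)^(ex D0)`.  By Markov's inequality
and `S_COUNT` the share of the tables with `∑ φ_j = ψ` which have at least `N` solutions, among the tables with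
`∑ φ_j = ψ`, is `≤ (μ + 2^(f+1-k)) / N`.  For `q ∈ Box y X` with the table `τ`: some `D` fits iff `∑ φ_j = ψ` (`S_SH1`), and
`Many A D N` implies that `τ` has at least `N` solutions (`S_SH2`).  Use `S_NEST` for all tables with a small `ε'`
(finitely many; `Nest` is compatible with finite conjunctions and monotone, induction on `k`); the tuples without
table (not all `Ap`; every `q` with `Ap` has exactly one table) have a small share, since the tables' shares add up
to almost `1`.  The tables with `∑ φ_j = ψ` have the total share `2^(-f)` (positive, if `k ≥ 1`); the errors are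
absorbed by `ε`; `k0` with `2^(f+1-k0) ≤ ε / 2`, `k0 ≥ 1`.  All `N ≥ 1` at once: there are finitely many sets of tables. -/
def S_SHARE : Prop := ∀ (F : Type) [Field F] [NumberField F], ∃ y0 : ℕ, ∀ y, y0 ≤ y →
  ∀ (A : HeightOneSpectrum (𝓞 F) → F → F → Prop) (c : HeightOneSpectrum (𝓞 F) → ℕ), Loc A c →
  ∀ D0 : F, D0 ≠ 0 → ∀ ε : ℝ, 0 < ε →
  ∃ k0 : ℕ, ∀ k, k0 ≤ k → Nest k fun X =>
    (Box y X : Set (Fin k → HeightOneSpectrum (𝓞 F))).Finite ∧
    0 < ({q ∈ (Box y X : Set (Fin k → HeightOneSpectrum (𝓞 F))) | ∃ D, Fits y D0 q D}.ncard : ℝ) ∧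
    ∀ N : ℕ, 1 ≤ N →
      ({q ∈ (Box y X : Set (Fin k → HeightOneSpectrum (𝓞 F))) | ∃ D, Fits y D0 q D ∧ Many A D N}.ncard : ℝ) ≤
        (2 ^ (∑ᶠ v, c v) * (1 / 2 : ℝ) ^ ex D0 / N + ε) *
          ({q ∈ (Box y X : Set (Fin k → HeightOneSpectrum (𝓞 F))) | ∃ D, Fits y D0 q D}.ncard : ℝ)

/-! ## Units -/

/-- JOB ATL (uses `S_BAS`). `AT` has the properties of `Loc`.
Proof.  Let `K = v.adicCompletion F` (characteristic 0), `D ≠ 0`.  First: for `b ∈ F`, `Lsq v b` iff `b ≠ 0` and `b` is a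
square in `K` (if `b = s²` approximate `s⁻¹` by `x ∈ F`; if `Lsq v b`: `b x_n² → 1`; by Hensel's lemma, or: the Newton
iteration of `S_BAS` (5) gives a Cauchy sequence).  `mul`, `inv` (replace `z` by `z / √n`) follow.  Let `T` be the
group of the `(x, z) ∈ K²`, `x² + D z² = 1`, `(x, z)(x', z') = (x x' - D z z', x z' + x' z)`, embedded in `M^*`,
`M = K(√(-D))` (splitting field of `X² + D` over `K`; `(x, z) ↦ x + z √(-D)`), `κ(x, z) = 2 + 2x` modulo squares for
`x ≠ -1`, `κ(-1, 0) = D`.  `κ` is a homomorphism `T → K^*/squares` whose kernel is `T²` (needed here: it is a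
homomorphism and trivial on `T²`; `(2 + 2x)(2 + 2x')(2 + 2x'')` is a square if `(x'', z'')` is the product: with
`p = (1 + x, z)`, `N(p) = 2 + 2x` and `p p'` is proportional to `p''`).  The condition with `c` says that the order of
`(x, z)` divides `2^c` (`x = 1` forces `z = 0`).  `two`: two elements of `2`-power order of `T ⊂ M^*` lie in a cyclic
group, so one of them is a power of the other; hence the class of one of them is trivial or both classes
are equal.  `clo`: multiply by `(-1, 0)`: `(2 + 2x)(2 - 2x) = 4 D z²`, a square times `D`; if `z = 0` then `x = ±1`. -/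
def S_ATL : Prop := ∀ (F : Type) [Field F] [NumberField F], Loc (AT (F := F)) (fun _ => 0)

/-- JOB AUL (uses `S_ATL`, `S_BAS`; needed only for `I ≠ (2)`). The conditions at the places above `2` not dividing `I`.
Proof.  `K = v.adicCompletion F`, `U` = the group of the `(x, z) ∈ K²`, `x² + D z² = 1`, `2x` integral; `κ : U → K^*/squares`
as in `S_ATL`; `ne`, `mul`, `inv`, `clo` as there.  `num`: the number of the classes is at most
`#(U / U²) ≤ 2 ^ (n + 1)`, `n = [K : ℚ_2]`, `2^n = #(O_K / 2)`.  For a large `M` two elements `u, u'` of `U` which are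
congruent modulo `π^M` differ by a square of `U` (Hensel).  The finite group `G` of the elements of `U` modulo
`π^M` has `#(G / G²) = #G[2]`.  If `u² ≡ 1` modulo `π^M` then `u ≡ ±1` modulo `π^(M')`, `π^M' = π^M / 2` up to a constant
shift absorbed by a careful choice, and the elements of `U` near `1` are parametrised by `z`: the number of
the classes modulo `2 π^(M')` of the elements `≡ 1` modulo `π^(M')` is `#(O_K / 2)`. -/
def S_AUL : Prop := ∀ (F : Type) [Field F] [NumberField F] (I : Ideal (𝓞 F)), Loc (AI I) (cI I)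

/-- JOB LA1. Saturation (only Mathlib).
Proof.  `W` = the submodule of the `x` such that `2^m x` is in the span of the `r j` for some `m`; it is a
submodule of a free module of finite rank over a principal ideal domain, so it is free, of rank `t` (it contains the
independent `r j`, and any `t + 1` elements are dependent since multiples of them lie in the span).  Take a basis `b`.
If all `∑ c_j b_j(i)`, `c_j ∈ {0, 1}`, are divisible by `2`, then `∑ c_j b_j = 2 x`, `x ∈ W`, so `c_j` is divisible by `2` in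
`ℤ_2`, `c = 0`.  One `m` for all `b j`. -/
def S_LA1 : Prop := ∀ (t p : ℕ) (r : Fin t → Fin p → ℤ_[2]), LinearIndependent ℤ_[2] r →
  ∃ (b : Fin t → Fin p → ℤ_[2]) (m : ℕ),
    (∀ j, (2 : ℤ_[2]) ^ m • b j ∈ Submodule.span ℤ_[2] (Set.range r)) ∧
    ∀ c : Fin t → ZMod 2, c ≠ 0 → ∃ i, ¬ (2 : ℤ_[2]) ∣ ∑ j, ((c j).val : ℤ_[2]) * b j i

/-- JOB LA2. The rank of a kernel (only Mathlib).
Proof.  Restrict `φ` to the span `V` of the `a j` (free of rank `s + t`).  The image has rank `≤ s` (no `s + 1`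
independent elements), rank-nullity (`LinearMap.rank_range_add_rank_ker`, or over the fraction field): the kernel has
rank `≥ t`, and a free module of rank `≥ t` has `t` independent elements. -/
def S_LA2 : Prop := ∀ (s t n p : ℕ) (a : Fin (s + t) → Fin n → ℤ_[2]), LinearIndependent ℤ_[2] a →
  ∀ φ : (Fin n → ℤ_[2]) →ₗ[ℤ_[2]] (Fin p → ℤ_[2]),
  (¬ ∃ x : Fin (s + 1) → Fin n → ℤ_[2], (∀ i, x i ∈ Submodule.span ℤ_[2] (Set.range a)) ∧
    LinearIndependent ℤ_[2] fun i => φ (x i)) →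
  ∃ b : Fin t → Fin n → ℤ_[2], LinearIndependent ℤ_[2] b ∧
    ∀ i, b i ∈ Submodule.span ℤ_[2] (Set.range a) ∧ φ (b i) = 0

/-- JOB CR1A (uses `S_LA2`). Relations between units of relative norm `1`.
Proof.  (`I` is an ideal dividing `(2)`, `J = I 𝓞 L`; the case `I = (2)` is typical.)  `σ` = the automorphism of `L/F`.
The set `{a | Rel K J ε a}` is a submodule of `(ℤ_2)^n` (sums; multiples: approximate the multiplier by integers `m`;
`x ≡ 1` modulo `J^N` implies `x^m ≡ 1`), for arbitrary tuples of units `ε` (not necessarily independent), and if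
`ε_i^h = ∏ δ_j^(c_ij)` then `Rel ε b` implies `Rel δ (b c)`.  Let `ε_1, .., ε_n`, relations `a_1, .., a_(s+t)` as in
`Df L J (s + t)`.  `E` = the group of the units of `L` of relative norm `1`, a subgroup of the finitely generated group
`(𝓞 L)ˣ`; `θ` = a basis of `E` modulo torsion, `δ_1, .., δ_q` fundamental units of `F`, `h > 0` kills the roots of unity of
`L`; `N(ε_i)^h = ∏ δ_j^(c_ij)`, `(ε_i / σ ε_i)^h = ∏ θ_j^(c'_ij)`, so `ε_i^(2h) = ∏ δ_j^(c_ij) ∏ θ_j^(c'_ij)`.
If `Rel L J ε b` then `Rel F I (N ε) b` (`x ≡ 1` modulo `J^N` implies `σ x ≡ 1`, `N x ≡ 1` modulo `J^N ∩ 𝓞 F = I^N`), so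
`Rel F I δ (b c)`, and `Rel L J (ε / σ ε) b`, so `Rel L J θ (b c')`.  As `¬ Df F I (s + 1)`, `S_LA2` gives independent
`b_1, .., b_t` in the span of the `a_j` with `b_i c = 0`.  The vectors `b_i c'` are independent: if `b c = 0` and
`b c' = 0` then `b = 0`: the rows of the integral matrix `C = (c | c')` are independent over `ℤ` (`ε` independent), so there
is an integral matrix `B` with `C B = N 1`, `N ≠ 0`. -/
def S_CR1A : Prop := ∀ (F L : Type) [Field F] [NumberField F] [Field L] [NumberField L] [Algebra F L]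
  (I : Ideal (𝓞 F)), (2 : 𝓞 F) ∈ I →
  Module.finrank F L = 2 → ∀ s t : ℕ, ¬ Df F I (s + 1) → Df L (I.map (algebraMap (𝓞 F) (𝓞 L))) (s + t) →
  ∃ (p : ℕ) (θ : Fin p → (𝓞 L)ˣ) (h : ℕ), 0 < h ∧
    (∀ i, Algebra.norm F (((θ i : (𝓞 L)ˣ) : 𝓞 L) : L) = 1) ∧
    (∀ c : Fin p → ℤ, ∏ i, θ i ^ c i = 1 → c = 0) ∧
    (∀ η : (𝓞 L)ˣ, Algebra.norm F ((η : 𝓞 L) : L) = 1 → ∃ c : Fin p → ℤ, η ^ h = (∏ i, θ i ^ c i) ^ h) ∧
    ∃ a : Fin t → Fin p → ℤ_[2], LinearIndependent ℤ_[2] a ∧
      ∀ j, Rel L (I.map (algebraMap (𝓞 F) (𝓞 L))) θ (a j)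

/-- JOB CR1 (uses `S_CR1A`, `S_LA1`). Units of relative norm `1` from relations.
Proof.  `θ`, `a` from `S_CR1A`, `b`, `m` from `S_LA1` for `r = a`; the elements of the span are relations (`Rel` is a
submodule), so for `c ∈ {0,1}^t` and `b_c = ∑ c_j b_j` the vector `2^m b_c` is a relation: integral vectors
`n_k → 2^m b_c` with `∏ θ^(n_k) → 1`; for large `k` `n_k = 2^m m_k` with `m_k → b_c`.  Let `w_(j,i)` be integers congruent to
`b_j(i)` modulo `2`, `w j = ∏ θ_i^(w_(j,i))`, `M = 2^m`.  For large `k` `m_k ≡ ∑ c_j w_j` modulo `2`,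
`m_k = ∑ c_j w_j + 2 n'`, `η = ∏ θ^(n')`: `∏ θ^(2^m m_k) = ((∏ w_j^(c_j)) η²)^M`.  If `∏ w_j^(c_j) = ± η²` with `c ≠ 0`
and `N(η) = 1`, `η^h = (∏ θ^n)^h`, then `∏ θ^(2h ∑ c_j w_j) = η^(4h) = ∏ θ^(4hn)`, so `∑ c_j w_j = 2n`, a contradiction to
`S_LA1`. -/
def S_CR1 : Prop := ∀ (F L : Type) [Field F] [NumberField F] [Field L] [NumberField L] [Algebra F L]
  (I : Ideal (𝓞 F)), (2 : 𝓞 F) ∈ I →
  Module.finrank F L = 2 → ∀ s t : ℕ, ¬ Df F I (s + 1) → Df L (I.map (algebraMap (𝓞 F) (𝓞 L))) (s + t) →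
  ∃ w : Fin t → (𝓞 L)ˣ, (∀ j, Algebra.norm F (((w j : (𝓞 L)ˣ) : 𝓞 L) : L) = 1) ∧
    (∀ c : Fin t → ZMod 2, c ≠ 0 → ∀ η : (𝓞 L)ˣ, Algebra.norm F ((η : 𝓞 L) : L) = 1 →
      ∏ j, w j ^ (c j).val ≠ η ^ 2 ∧ ∏ j, w j ^ (c j).val ≠ - η ^ 2) ∧
    ∃ M : ℕ, 0 < M ∧ ∀ (c : Fin t → ZMod 2) (N : ℕ), ∃ η : (𝓞 L)ˣ,
      Algebra.norm F ((η : 𝓞 L) : L) = 1 ∧
      ((((∏ j, w j ^ (c j).val) * η ^ 2) ^ M : (𝓞 L)ˣ) : 𝓞 L) - 1 ∈ I.map (algebraMap (𝓞 F) (𝓞 L)) ^ N

/-- JOB CR2L. The condition at the primes `v` above `2` which divide `I`.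
Proof.  (`J = I 𝓞 L`.)  `K = v.adicCompletion F`, locally compact; `L = F(√d)`, `√d = ρ`.  We may assume that `M` is a power of `2`: `M = 2^c M'`,
`M'` odd; replace `w` by `w^(M')` (`2 + Tr(w^(M'))` and `2 + Tr(w)` differ by a square, see below).  For every `N` let
`τ_N = w η_N² = x_N + z_N ρ`, `x_N, z_N ∈ F`, `x_N² - d z_N² = 1`, `2 x_N = Tr τ_N` integral, so `x_N`, `z_N` are bounded at `v`; a
subsequence converges to `(x, z) ∈ K²`, `x² - d z² = 1`, and since `τ_N^(2^c) → 1` `v`-adically (coordinates: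
the first coordinate of `τ²` is `2x² - 1`; a number of `J^N` has coordinates `≤` `exp(-N + const)` at `v`) the
`c`-th iterate of `2t² - 1` at `x` is `1`.  `κ(w) = 2 + Tr w = N_(L/F)(1 + w)`; `κ(w w') ` and `κ(w) κ(w')` differ by the square of
an element of `F` (for `w, w', w w' ≠ -1`; `(1 + w)(1 + w')/(1 + w w') ∈ F`).  `κ(w η²) = κ(w) κ(η²) ·□`, `κ(η²) = κ(η)²·□ = (Tr η)²`.
If `x ≠ -1` then `2 + 2 x_N → 2 + 2x ≠ 0` in `K`, so they agree up to a square for large `N` (a number close to `1` is a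
square) and `κ(w) (2 + 2x)` is a square in `K`.  If `x = -1` then `- τ_N → 1`, `2 - 2 x_N → 4` is a square, and
`(2 + 2 x_N)(2 - 2 x_N) = - 4 d z_N²`, so `κ(w) · (-d)` is a square in `K`. -/
def S_CR2L : Prop := ∀ (F L : Type) [Field F] [NumberField F] [Field L] [NumberField L] [Algebra F L] (d : F),
  Quad F L d → ∀ I : Ideal (𝓞 F), (2 : 𝓞 F) ∈ I → ∀ v : HeightOneSpectrum (𝓞 F), I ≤ v.asIdeal →
  ∀ (w : (𝓞 L)ˣ) (M : ℕ), 0 < M →
  Algebra.norm F ((w : 𝓞 L) : L) = 1 → w ≠ -1 →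
  (∀ N : ℕ, ∃ η : (𝓞 L)ˣ, Algebra.norm F ((η : 𝓞 L) : L) = 1 ∧
      (((w * η ^ 2) ^ M : (𝓞 L)ˣ) : 𝓞 L) - 1 ∈ I.map (algebraMap (𝓞 F) (𝓞 L)) ^ N) →
  AT v (-d) (2 + Algebra.trace F L ((w : 𝓞 L) : L))

/-- JOB CR2 (uses `S_CR1`, `S_CR2L`, `S_BAS`). The classes of the units.
Proof.  For `c ≠ 0` put `w_c = ∏ w_j^(c_j)`, `a_c = 2 + Tr(w_c) = N_(L/F)(1 + w_c)`; `w_c ≠ -1` (`= - 1²`).  `a a' = - d (2z)²` and
`a + a' = 4` for `a = 2 + 2x`, `a' = 2 - 2x`, `w_c = x + z ρ`; both are in `𝓞 F`.  `v` odd: `a, a'` are not both in `v`.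
`v(d)` even: `v(a) + v(a')` is even and one of them is `0`, so `v(a)` is even.  `v(d)` odd: `v(a) + v(a')` odd, so exactly
one is in `v`: if `a ∉ v` then `a' ∈ v`, `a ≡ 4` modulo `v`, `Lsq v a` (`S_BAS` (5)); if `a' ∉ v` then `Lsq v a'` and
`a (-d) = (2 d z)² / a'`.  Real `φ` with `φ(d) < 0`: `x² - φ(d) z² = 1` gives `|x| ≤ 1`, `a ≥ 0`, `a ≠ 0`.  Above `2`: `S_CR2L` if
`I ≤ v.asIdeal`; otherwise `AU` with `(x, z)` itself (`2x = Tr w_c` is integral, `x ≠ -1`, `a_c (2 + 2x) = a_c²`).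
`a_c a_(c')` and `a_(c+c')` differ by a square (see `S_CR2L`; `w_c w_(c')` and `w_(c+c')` differ by the square of a unit of norm
`1`).  If `a_c = g²` then `w_c = ((1 + w_c)/g)²`; if `a_c (-d) = g²` then `- w_c = η²` with `η = (1 - w_c)/g'`,
`g'² = 2 - 2x`; both `η` have norm `1` and are units.  So the `2^t - 1` elements `a_c`, `c ≠ 0`, are as required. -/
def S_CR2 : Prop := ∀ (F L : Type) [Field F] [NumberField F] [Field L] [NumberField L] [Algebra F L] (d : F),
  Quad F L d → ∀ I : Ideal (𝓞 F), (2 : 𝓞 F) ∈ I → ∀ s t : ℕ, ¬ Df F I (s + 1) →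
  Df L (I.map (algebraMap (𝓞 F) (𝓞 L))) (s + t) → Many (AI I) (-d) (2 ^ t - 1)

/-- Leopoldt's conjecture for `K` and `p = 2` in the form of the frozen statement -/
def Leo (K : Type) [Field K] [NumberField K] : Prop :=
  ∀ (n : ℕ) (ε : Fin n → (𝓞 K)ˣ),
    (∀ i, ((ε i : 𝓞 K) - 1) ∈ (Ideal.span {((2 : ℕ) : 𝓞 K)}).radical) →
    (∀ c : Fin n → ℤ, ∏ i, ε i ^ c i = 1 → c = 0) →
    ∀ (a : Fin n → PadicInt 2) (m : ℕ → Fin n → ℤ),
      (∀ i, Tendsto (fun k => ((m k i : ℤ) : PadicInt 2)) atTop (𝓝 (a i))) →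
      (∀ N : ℕ, ∀ᶠ k in atTop,
        ((2 : ℕ) : 𝓞 K) ^ N ∣ (((∏ i, ε i ^ m k i : (𝓞 K)ˣ) : 𝓞 K) - 1)) →
      a = 0

/-- JOB LEO. Leopoldt's conjecture says that the defect is `0`.
Proof.  (`x ∈ (2)^N` iff `2^N ∣ x`.)  `→`: if `Df K (2) 1`, one nonzero relation `a` between independent units `ε_i`; with `h` = exponent of
`(𝓞 K / 2)ˣ` the units `ε_i^h` are `≡ 1`, independent, and satisfy the relation `a` (sequence `m_k`: `∏ (ε_i^h)^(m_k) = (∏ ε_i^(m_k))^h → 1`).
`←`: a nonzero `a` is a linearly independent family with one element. -/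
def S_LEO : Prop := ∀ (K : Type) [Field K] [NumberField K], Leo K ↔ ¬ Df K (Ideal.span {2}) 1

/-- the main theorem -/
def S_MAIN : Prop := ∀ (F : Type) [Field F] [NumberField F], ∃ y0 : ℕ, ∀ y, y0 ≤ y →
  ∀ (I : Ideal (𝓞 F)) (c : HeightOneSpectrum (𝓞 F) → ℕ), (2 : 𝓞 F) ∈ I → Loc (AI I) c →
  ∀ d0 : F, d0 ≠ 0 → ∀ ε : ℝ, 0 < ε → ∃ k0 : ℕ, ∀ k, k0 ≤ k → Nest k fun X =>
    (Box y X : Set (Fin k → HeightOneSpectrum (𝓞 F))).Finite ∧
    0 < ({q ∈ (Box y X : Set (Fin k → HeightOneSpectrum (𝓞 F))) | ∃ d, Fits y d0 q d}.ncard : ℝ) ∧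
    ∀ s t : ℕ, 1 ≤ t → ¬ Df F I (s + 1) →
      ({q ∈ (Box y X : Set (Fin k → HeightOneSpectrum (𝓞 F))) | ∃ d, Fits y d0 q d ∧
          ∃ (L : Type) (_ : Field L) (_ : NumberField L) (_ : Algebra F L),
            Quad F L d ∧ Df L (I.map (algebraMap (𝓞 F) (𝓞 L))) (s + t)}.ncard : ℝ) ≤
        (2 ^ (∑ᶠ v, c v) * (1 / 2 : ℝ) ^ ex (-d0) / (2 ^ t - 1) + ε) *
          ({q ∈ (Box y X : Set (Fin k → HeightOneSpectrum (𝓞 F))) | ∃ d, Fits y d0 q d}.ncard : ℝ)

end Pool.Agent.Q283.LQ
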