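import Pool.Agent.Q283.LQ.All

/-!
# Project LQ (helper283): the field belonging to a tuple of primes is unique
-/

set_option autoImplicit false

namespace Pool.Agent.Q283.LQ

open NumberField IsDedekindDomain Filter Topology Finset

theorem mon_zero {F : Type} [Field F] {f : ℕ} (u : Fin f → F) : mon u (fun _ => 0) = 1 := by
  simp [mon]

theorem uniq (F : Type) [Field F] [NumberField F] : ∃ y0 : ℕ, ∀ y, y0 ≤ y → ∀ (d0 : F), d0 ≠ 0 →
    ∀ (k : ℕ) (q : Fin k → HeightOneSpectrum (𝓞 F)) (d d' : F), Fits y d0 q d → Fits y d0 q d' →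
    IsSquare (d * d') := by
  obtain ⟨y0, hy0⟩ := t_BASE F
  refine ⟨y0, fun y hy d0 hd0 k q d d' hd hd' => ?_⟩
  obtain ⟨f, u, r, π, g, hb, hf⟩ := hy0 y hy
  have hd1 := hd.ne
  have hd1' := hd'.ne
  have hne : d * d' ≠ 0 := mul_ne_zero hd1 hd1'
  have hB := t_BAS F
  have hlsq : ∀ v : HeightOneSpectrum (𝓞 F), Sm y v → Lsq v (d * d') := by
    intro v hv
    have h1 := (hB v).2.1 _ _ ((hB v).2.1 _ _ (hd.loc v hv) (hd'.loc v hv))
      ((hB v).2.2.1 d0⁻¹ (inv_ne_zero hd0))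
    have h2 : d * d0 * (d' * d0) * d0⁻¹ ^ 2 = d * d' := by
      field_simp
    rwa [h2] at h1
  have hpos : ∀ φ : F →+* ℝ, 0 < φ (d * d') := by
    intro φ
    have h1 := mul_pos (hd.real φ) (hd'.real φ)
    have h2 : φ (d * d0) * φ (d' * d0) = φ (d * d') * (φ d0) ^ 2 := by
      simp only [map_mul]
      ring
    rw [h2] at h1
    exact pos_of_mul_pos_left h1 (sq_nonneg _)
  have hod : ∀ v : HeightOneSpectrum (𝓞 F), ¬ Sm y v → ¬ Od v (d * d') := by
    intro v hv h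
    have h1 := ((hB v).2.2.2.1 d d' hd1 hd1').mp h
    rw [hd.ram v hv, hd'.ram v hv] at h1
    tauto
  have hNn : Nn y (d * d') := ⟨hne, hlsq, hpos⟩
  obtain ⟨c, x, hx⟩ := hb.full (d * d') hne hod
  obtain ⟨p, -, hp⟩ := hb.cls (d * d') hne
  have e1 : ((fun _ => 0, fun _ => 0) : (Fin f → ZMod 2) × (Fin f → ZMod 2)) = p := by
    apply hp
    show Nn y (d * d' * mon r (fun _ => 0) * mon u (fun _ => 0))
    rw [mon_zero, mon_zero, mul_one, mul_one]
    exact hNn
  have hmon : mon u c ≠ 0 := by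
    rw [mon]
    exact Finset.prod_ne_zero_iff.mpr fun l _ => pow_ne_zero _ (hb.ue l)
  have hx0 : x ≠ 0 := by
    rintro rfl
    rw [mul_zero] at hx
    exact mul_ne_zero hne hmon hx
  have e2 : ((fun _ => 0, c) : (Fin f → ZMod 2) × (Fin f → ZMod 2)) = p := by
    apply hp
    show Nn y (d * d' * mon r (fun _ => 0) * mon u c)
    rw [mon_zero, mul_one, hx, ← sq]
    refine ⟨pow_ne_zero _ hx0, fun v _ => (hB v).2.2.1 x hx0, fun φ => ?_⟩
    rw [map_pow]
    exact sq_pos_of_ne_zero ((map_ne_zero φ).mpr hx0)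
  have hc : c = fun _ => 0 := by
    have := e2.trans e1.symm
    exact (Prod.ext_iff.mp this).2
  rw [hc, mon_zero, mul_one] at hx
  exact ⟨x, hx⟩

end Pool.Agent.Q283.LQ
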