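import Pool.Agent.Q7.LM.All
import Pool.Agent.Q283.LQ.Uni

/-!
# Project LQ (helper283): the improved share theorem (helper7), in the form used for the hand-ins
-/

set_option autoImplicit false

namespace Pool.Agent.Q283.LQ

open NumberField IsDedekindDomain Filter Topology Finset

/-- `μ^t / ∏_(i ≤ t) (2^i - 1)`, `μ = 2^(-e)` -/
noncomputable def bdT (e t : ℕ) : ℝ := ((1 / 2) ^ e) ^ t / ∏ i ∈ Finset.range t, ((2 : ℝ) ^ (i + 1) - 1)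

/-- `μ - μ²/3 + μ³/21`, `μ = 2^(-e)` -/
noncomputable def bdO (e : ℕ) : ℝ := (1 / 2) ^ e - ((1 / 2) ^ e) ^ 2 / 3 + ((1 / 2) ^ e) ^ 3 / 21

theorem nest_and' : ∀ (k : ℕ) (P Q : (Fin k → ℕ) → Prop), Nest k P → Nest k Q → Nest k fun X => P X ∧ Q X
  | 0, _, _, h, hP => ⟨h, hP⟩
  | k + 1, P, Q, h, hQ => by
      refine nest_mono k _ _ (fun X hX => ?_) (nest_and' k _ _ h hQ)
      filter_upwards [hX.1, hX.2] with x h1 h2 using ⟨h1, h2⟩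

theorem many_one {F : Type} [Field F] [NumberField F] {A : HeightOneSpectrum (𝓞 F) → F → F → Prop} {D : F} {N : ℕ}
    (hN : 1 ≤ N) (h : Many A D N) : Many A D 1 := by
  obtain ⟨a, ha, -⟩ := h
  refine ⟨fun _ => a ⟨0, hN⟩, fun _ => ha _, fun i j hij => ?_⟩
  exact absurd (Subsingleton.elim i j) hij

theorem share_min (F : Type) [Field F] [NumberField F] : ∃ y0 : ℕ, ∀ y, y0 ≤ y →
  ∀ (A : HeightOneSpectrum (𝓞 F) → F → F → Prop), Loc A (fun _ => 0) → Pool.Agent.Q7.LM.LocG A →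
  ∀ D0 : F, D0 ≠ 0 → ∀ ε : ℝ, 0 < ε → ∃ k0 : ℕ, ∀ k, k0 ≤ k → Nest k fun X =>
    (Box y X : Set (Fin k → HeightOneSpectrum (𝓞 F))).Finite ∧
    0 < ({q ∈ (Box y X : Set (Fin k → HeightOneSpectrum (𝓞 F))) | ∃ D, Fits y D0 q D}.ncard : ℝ) ∧
    (∀ t : ℕ, 1 ≤ t →
      ({q ∈ (Box y X : Set (Fin k → HeightOneSpectrum (𝓞 F))) |
          ∃ D, Fits y D0 q D ∧ Many A D (2 ^ t - 1)}.ncard : ℝ) ≤
        (min (bdT (ex D0) t) (bdO (ex D0)) + ε) *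
          ({q ∈ (Box y X : Set (Fin k → HeightOneSpectrum (𝓞 F))) | ∃ D, Fits y D0 q D}.ncard : ℝ)) := by
  obtain ⟨y0, hy0⟩ := Pool.Agent.Q7.LM.t_SHARE3 F
  refine ⟨y0, fun y hy A hA hG D0 hD0 ε hε => ?_⟩
  obtain ⟨k0, hk0⟩ := hy0 y hy A (fun _ => 0) hA hG D0 hD0 ε hε
  refine ⟨k0, fun k hk => nest_mono k _ _ (fun X hX => ?_) (hk0 k hk)⟩
  obtain ⟨hfin, hpos, hT, hO⟩ := hX
  simp only [finsum_zero, pow_zero, one_mul] at hT hO
  refine ⟨hfin, hpos, fun t ht => ?_⟩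
  have h1 : 1 ≤ 2 ^ t - 1 := by
    have : 2 ^ 1 ≤ 2 ^ t := Nat.pow_le_pow_right (by norm_num) ht
    omega
  have h2 := hT t
  have h3 := hO (pow_le_one₀ (by norm_num) (by norm_num))
  have h4 : ({q ∈ (Box y X : Set (Fin k → HeightOneSpectrum (𝓞 F))) |
          ∃ D, Fits y D0 q D ∧ Many A D (2 ^ t - 1)}.ncard : ℝ) ≤
      ({q ∈ (Box y X : Set (Fin k → HeightOneSpectrum (𝓞 F))) | ∃ D, Fits y D0 q D ∧ Many A D 1}.ncard : ℝ) := by
    have h5 : {q ∈ (Box y X : Set (Fin k → HeightOneSpectrum (𝓞 F))) |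
          ∃ D, Fits y D0 q D ∧ Many A D (2 ^ t - 1)} ⊆
        {q ∈ (Box y X : Set (Fin k → HeightOneSpectrum (𝓞 F))) | ∃ D, Fits y D0 q D ∧ Many A D 1} := by
      rintro q ⟨hq, D, hD, hM⟩
      exact ⟨hq, D, hD, many_one h1 hM⟩
    exact_mod_cast Set.ncard_le_ncard h5 (hfin.subset (fun q hq => hq.1))
  rcases le_total (bdT (ex D0) t) (bdO (ex D0)) with h | h
  · rw [min_eq_left h]
    exact h2
  · rw [min_eq_right h]
    exact h4.trans h3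

end Pool.Agent.Q283.LQ
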