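import Pool.Agent.Q283.LQ.Main
import Pool.Agent.Q208.LQ.Bas
import Pool.Agent.Q96.LQ.LOC
import Pool.Agent.Q96.LQ.SU
import Pool.Agent.Q182.LQ.Rec
import Pool.Agent.Q129.LQ.CHEB
import Pool.Agent.Q150.LQ.BAS1
import Pool.Agent.Q129.LQ.BASE
import Pool.Agent.Q151.LQ.AA
import Pool.Agent.Q129.LQ.COUNT
import Pool.Agent.Q53.LQ2.NEST
import Pool.Agent.Q151.LQ.SH1
import Pool.Agent.Q129.LQ.SH2
import Pool.Agent.Q151.LQ.EE
import Pool.Agent.Q14.LQS.Share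
import Pool.Agent.Q198.LQ.ATL
import Pool.Agent.Q53.LQ2.LA1
import Pool.Agent.Q53.LQ2.LA2
import Pool.Agent.Q14.LQS.Cr1a
import Pool.Agent.Q198.LQ.CR1
import Pool.Agent.Q14.LQS.Cr2l
import Pool.Agent.Q129.LQ.CR2
import Pool.Agent.Q151.LQ.LEO

/-!
# Project LQ (helper283): assembly
-/

set_option autoImplicit false

namespace Pool.Agent.Q283.LQ

open NumberField IsDedekindDomain Filter Topology Finset

theorem t_BAS : S_BAS := Pool.Agent.Q208.LQ.bas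

theorem t_CHEB : S_CHEB := Pool.Agent.Q129.LQ.cheb t_BAS

theorem t_REC : S_REC := Pool.Agent.Q182.LQ.t_REC t_BAS

theorem t_LOC : S_LOC := Pool.Agent.Q96.LQ.loc t_BAS

theorem t_BASE : S_BASE :=
  Pool.Agent.Q129.LQ.base t_BAS (Pool.Agent.Q150.LQ.bas1 t_BAS t_LOC Pool.Agent.Q96.LQ.su t_REC t_CHEB) t_REC t_CHEB

theorem t_AA : S_AA := Pool.Agent.Q151.LQ.AA t_BAS

theorem t_SH1 : S_SH1 := Pool.Agent.Q151.LQ.SH1 t_BAS

theorem t_SHARE : S_SHARE :=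
  Pool.Agent.Q14.LQS.share t_BASE t_LOC t_SH1 (Pool.Agent.Q129.LQ.sh2 t_BAS t_SH1)
    (Pool.Agent.Q151.LQ.EE t_BAS t_AA) Pool.Agent.Q129.LQ.count (Pool.Agent.Q53.LQ2.NEST.main t_CHEB t_BAS)

theorem t_CR1 : S_CR1 :=
  Pool.Agent.Q198.LQ.cr1 (Pool.Agent.Q14.LQS.cr1a Pool.Agent.Q53.LQ2.LA2.main) Pool.Agent.Q53.LQ2.LA1.main

theorem t_CR2L' : S_CR2L' := Pool.Agent.Q14.LQS.cr2l

theorem t_CR2' : S_CR2' := Pool.Agent.Q129.LQ.cr2 t_CR1 t_CR2L' t_BAS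

theorem t_MAIN : S_MAIN := main t_SHARE t_CR2'

theorem t_ATL : S_ATL := Pool.Agent.Q198.LQ.atl

theorem t_LEO : S_LEO := Pool.Agent.Q151.LQ.LEO

end Pool.Agent.Q283.LQ
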