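import Mathlib

/-!
# Project LQ (helper283): Leopoldt's conjecture in quadratic extensions, definitions

`F` is a number field, `L = F(√d)`, `D = - d`.  The 2-adic relations between the units of `L` of relative
norm `1` give classes `a` in `F^*` modulo squares and `D` which satisfy strong local conditions (`Cond`).  We show
that for most `D` there are only few of them.
-/

set_option autoImplicit false

namespace Pool.Agent.Q283.LQ

open NumberField IsDedekindDomain Filter Topology

/-! ## Local conditions -/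

section F

variable {F : Type} [Field F] [NumberField F]

/-- the valuation of `a` at `v` is odd (so `a ≠ 0`) -/
def Od (v : HeightOneSpectrum (𝓞 F)) (a : F) : Prop :=
  ∃ n : ℤ, v.valuation F a = WithZero.exp (2 * n + 1)

/-- `a` is a nonzero square in the completion of `F` at `v`: for suitable `x ∈ F` the number `a x²` is
arbitrarily close to `1` -/
def Lsq (v : HeightOneSpectrum (𝓞 F)) (a : F) : Prop :=
  ∀ n : ℕ, ∃ x : F, v.valuation F (a * x ^ 2 - 1) < WithZero.exp (-(n : ℤ))

/-- `v` lies above a rational prime `l ≤ y` -/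
def Sm (y : ℕ) (v : HeightOneSpectrum (𝓞 F)) : Prop :=
  ∃ l : ℕ, l.Prime ∧ l ≤ y ∧ (l : 𝓞 F) ∈ v.asIdeal

/-- `v` lies above `2` -/
def Dy (v : HeightOneSpectrum (𝓞 F)) : Prop := (2 : 𝓞 F) ∈ v.asIdeal

/-- `b` is a nonzero square at all places above the rational primes `≤ y` and positive at all real places -/
def Nn (y : ℕ) (b : F) : Prop :=
  b ≠ 0 ∧ (∀ v : HeightOneSpectrum (𝓞 F), Sm y v → Lsq v b) ∧ ∀ φ : F →+* ℝ, 0 < φ b

/-- a family of sets `A v D` of classes of `F_v^*` modulo squares, `v` above `2`, of at most `2 ^ (c v + 1)` elements,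
closed under the multiplication by `D`, and depending only on the class of `D` modulo squares of `F_v` -/
structure Loc (A : HeightOneSpectrum (𝓞 F) → F → F → Prop) (c : HeightOneSpectrum (𝓞 F) → ℕ) : Prop where
  ne : ∀ v D a, Dy v → D ≠ 0 → A v D a → a ≠ 0
  mul : ∀ v D a b, Dy v → D ≠ 0 → A v D a → Lsq v b → A v D (a * b)
  inv : ∀ v D n a, Dy v → D ≠ 0 → Lsq v n → A v D a → A v (D * n) a
  clo : ∀ v D a, Dy v → D ≠ 0 → A v D a → A v D (a * D)
  num : ∀ v D, Dy v → D ≠ 0 → ∀ B : Finset F, (∀ b ∈ B, A v D b) →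
    (∀ b ∈ B, ∀ b' ∈ B, b ≠ b' → ¬ Lsq v (b * b')) → B.card ≤ 2 ^ (c v + 1)
  zero : ∀ v, ¬ Dy v → c v = 0

/-- `a` satisfies the local conditions belonging to `D` -/
structure Cond (A : HeightOneSpectrum (𝓞 F) → F → F → Prop) (D a : F) : Prop where
  ne : a ≠ 0
  even : ∀ v : HeightOneSpectrum (𝓞 F), ¬ Dy v → ¬ Od v D → ¬ Od v a
  odd : ∀ v : HeightOneSpectrum (𝓞 F), ¬ Dy v → Od v D → Lsq v a ∨ Lsq v (a * D)
  two : ∀ v : HeightOneSpectrum (𝓞 F), Dy v → A v D a
  real : ∀ φ : F →+* ℝ, 0 < φ D → 0 < φ a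

/-- there are `N` elements `a` with the local conditions which are pairwise different, and different from `1`,
up to squares and the factor `D` -/
def Many (A : HeightOneSpectrum (𝓞 F) → F → F → Prop) (D : F) (N : ℕ) : Prop :=
  ∃ a : Fin N → F, (∀ i, Cond A D (a i) ∧ ¬ IsSquare (a i) ∧ ¬ IsSquare (a i * D)) ∧
    ∀ i j, i ≠ j → ¬ IsSquare (a i * a j) ∧ ¬ IsSquare (a i * a j * D)

/-! ## The ensemble -/

/-- `D` has, outside the primes above the rational primes `≤ y`, odd valuation exactly at the primes `q i`, and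
it is, at the primes above the rational primes `≤ y` and at the real places, equal to `D0` up to squares -/
structure Fits (y : ℕ) (D0 : F) {k : ℕ} (q : Fin k → HeightOneSpectrum (𝓞 F)) (D : F) : Prop where
  ne : D ≠ 0
  ram : ∀ v : HeightOneSpectrum (𝓞 F), ¬ Sm y v → (Od v D ↔ ∃ i, q i = v)
  loc : ∀ v : HeightOneSpectrum (𝓞 F), Sm y v → Lsq v (D * D0)
  real : ∀ φ : F →+* ℝ, 0 < φ (D * D0)

/-- the tuples of `k` different primes `q i`, not above rational primes `≤ y`, of norm `N (q i) ≤ X i` -/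
def Box (y : ℕ) {k : ℕ} (X : Fin k → ℕ) : Set (Fin k → HeightOneSpectrum (𝓞 F)) :=
  {q | Function.Injective q ∧ ∀ i, ¬ Sm y (q i) ∧ Ideal.absNorm (q i).asIdeal ≤ X i}

variable (F) in
/-- the number of the primes of `F` above rational primes `≤ y` -/
noncomputable def nS (y : ℕ) : ℕ := Nat.card {v : HeightOneSpectrum (𝓞 F) // Sm y v}

/-- the number of the complex places of `F` and of the real places where `D0` is positive -/
noncomputable def ex (D0 : F) : ℕ :=
  InfinitePlace.nrComplexPlaces F + Nat.card {φ : F →+* ℝ // 0 < φ D0}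

/-! ## Symbols -/

open Classical in
/-- `0` if `a` is a nonzero square in the completion at `v`, otherwise `1` -/
noncomputable def sb (v : HeightOneSpectrum (𝓞 F)) (a : F) : ZMod 2 := if Lsq v a then 0 else 1

/-- `∏ u_l ^ c_l` -/
noncomputable def mon {f : ℕ} (u : Fin f → F) (c : Fin f → ZMod 2) : F := ∏ l, u l ^ (c l).val

/-- no rational prime lies below both `q` and `q'` -/
def Ap (q q' : HeightOneSpectrum (𝓞 F)) : Prop :=
  ∀ l : ℕ, l.Prime → (l : 𝓞 F) ∈ q.asIdeal → (l : 𝓞 F) ∉ q'.asIdeal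

end F

/-- for all large `X 0`, for all `X 1` large in terms of `X 0`, ..., for all `X (k-1)` large in terms of the others,
`P X` is true -/
def Nest : (k : ℕ) → ((Fin k → ℕ) → Prop) → Prop
  | 0, P => P Fin.elim0
  | k + 1, P => Nest k fun X => ∀ᶠ x : ℕ in atTop, P (Fin.snoc (α := fun _ => ℕ) X x)

/-! ## Leopoldt defects at the prime `2` -/

/-- the vector `a` of `2`-adic integers is a relation between the units `ε i`: there are integral vectors `m k`
which tend to `a`, such that the units `∏ ε i ^ m k i` tend `J`-adically to `1` -/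
def Rel (K : Type) [Field K] [NumberField K] (J : Ideal (𝓞 K)) {n : ℕ} (ε : Fin n → (𝓞 K)ˣ)
    (a : Fin n → ℤ_[2]) : Prop :=
  ∃ m : ℕ → Fin n → ℤ, (∀ i, Tendsto (fun k => ((m k i : ℤ) : ℤ_[2])) atTop (𝓝 (a i))) ∧
    ∀ N : ℕ, ∀ᶠ k in atTop, ((∏ i, ε i ^ m k i : (𝓞 K)ˣ) : 𝓞 K) - 1 ∈ J ^ N

/-- the Leopoldt defect of `K` at the places dividing `J` is at least `t`: there are multiplicatively independent
units of `K` with `t` relations which are linearly independent over the `2`-adic integers.  (For `J = (2)` this is the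
usual defect at the prime `2`; `J` is always a divisor of `(2)`.) -/
def Df (K : Type) [Field K] [NumberField K] (J : Ideal (𝓞 K)) (t : ℕ) : Prop :=
  ∃ (n : ℕ) (ε : Fin n → (𝓞 K)ˣ), (∀ c : Fin n → ℤ, ∏ i, ε i ^ c i = 1 → c = 0) ∧
    ∃ a : Fin t → Fin n → ℤ_[2], LinearIndependent ℤ_[2] a ∧ ∀ j, Rel K J ε (a j)

/-- `L` is the quadratic extension `F(√d)` -/
structure Quad (F L : Type) [Field F] [Field L] [Algebra F L] (d : F) : Prop where
  deg : Module.finrank F L = 2
  root : ∃ x : L, x ^ 2 = algebraMap F L d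

section F2

variable {F : Type} [Field F] [NumberField F]

/-- `a` is the class of a torsion point of `2`-power order of the torus `x² + D z² = 1` over `F_v` (the units of
norm `1` of `F_v(√(-D))`): the class of `(x, z)` is `2 + 2x`, and the class of `(-1, 0)` is `D`; the first coordinate
of the double of `(x, z)` is `2x² - 1` -/
def AT (v : HeightOneSpectrum (𝓞 F)) (D a : F) : Prop :=
  a ≠ 0 ∧ ∃ x z : v.adicCompletion F, x ^ 2 + (D : v.adicCompletion F) * z ^ 2 = 1 ∧
    (∃ c : ℕ, (fun t : v.adicCompletion F => 2 * t ^ 2 - 1)^[c] x = 1) ∧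
    ((x ≠ -1 ∧ IsSquare ((a : v.adicCompletion F) * (2 + 2 * x))) ∨
      (x = -1 ∧ IsSquare ((a : v.adicCompletion F) * (D : v.adicCompletion F))))

/-- `a` is the class of an integral unit `(x, z)` of norm `1` of `F_v(√(-D))` (no condition on the order) -/
def AU (v : HeightOneSpectrum (𝓞 F)) (D a : F) : Prop :=
  a ≠ 0 ∧ ∃ x z : v.adicCompletion F, x ^ 2 + (D : v.adicCompletion F) * z ^ 2 = 1 ∧
    2 * x ∈ v.adicCompletionIntegers F ∧
    ((x ≠ -1 ∧ IsSquare ((a : v.adicCompletion F) * (2 + 2 * x))) ∨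
      (x = -1 ∧ IsSquare ((a : v.adicCompletion F) * (D : v.adicCompletion F))))

/-- the local conditions above `2` for the relations at the places dividing `I` -/
def AI (I : Ideal (𝓞 F)) (v : HeightOneSpectrum (𝓞 F)) (D a : F) : Prop :=
  (I ≤ v.asIdeal → AT v D a) ∧ (¬ I ≤ v.asIdeal → AU v D a)

open Classical in
/-- `[F_v : ℚ_2]` if `v` lies above `2` and does not divide `I`, otherwise `0` -/
noncomputable def cI (I : Ideal (𝓞 F)) (v : HeightOneSpectrum (𝓞 F)) : ℕ :=
  if Dy v ∧ ¬ I ≤ v.asIdeal then v.asIdeal.ramificationIdx ℤ * v.asIdeal.inertiaDeg ℤ else 0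

end F2

end Pool.Agent.Q283.LQ
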