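import Pool.Agent.Q283.LQ.Stm2

/-!
# Project LQ (helper283): the main theorem from `S_SHARE` and `S_CR2'`
-/

set_option autoImplicit false

namespace Pool.Agent.Q283.LQ

open NumberField IsDedekindDomain Filter Topology Finset

theorem nest_mono : ∀ (k : ℕ) (P Q : (Fin k → ℕ) → Prop), (∀ X, P X → Q X) → Nest k P → Nest k Q
  | 0, _, _, h, hP => h _ hP
  | k + 1, P, Q, h, hP => nest_mono k _ _ (fun X hX => by
      filter_upwards [hX] with x hx using h _ hx) hP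

section

variable {F : Type} [Field F] [NumberField F]

theorem fits_neg {y : ℕ} {D0 : F} {k : ℕ} {q : Fin k → HeightOneSpectrum (𝓞 F)} {D : F}
    (h : Fits y D0 q D) : Fits y (-D0) q (-D) where
  ne := neg_ne_zero.mpr h.ne
  ram := fun v hv => by
    rw [← h.ram v hv]
    simp only [Od, Valuation.map_neg]
  loc := fun v hv => by rw [neg_mul_neg]; exact h.loc v hv
  real := fun φ => by rw [neg_mul_neg]; exact h.real φ

theorem fits_neg_iff {y : ℕ} {D0 : F} {k : ℕ} {q : Fin k → HeightOneSpectrum (𝓞 F)} :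
    (∃ D, Fits y (-D0) q D) ↔ ∃ D, Fits y D0 q D := by
  constructor
  · rintro ⟨D, hD⟩
    refine ⟨-D, ?_⟩
    have := fits_neg hD
    rwa [neg_neg] at this
  · rintro ⟨D, hD⟩
    exact ⟨-D, fits_neg hD⟩

end

theorem not_od_sq {F : Type} [Field F] [NumberField F] (v : HeightOneSpectrum (𝓞 F)) {d : F}
    (h : Od v d) : ¬ IsSquare d := by
  rintro ⟨x, rfl⟩
  obtain ⟨n, hn⟩ := h
  rw [map_mul] at hn
  have hx : v.valuation F x ≠ 0 := by
    intro h0
    rw [h0, mul_zero] at hn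
    exact WithZero.exp_ne_zero hn.symm
  obtain ⟨m, hm⟩ : ∃ m : ℤ, v.valuation F x = WithZero.exp m := by
    refine ⟨WithZero.log (v.valuation F x), ?_⟩
    rw [WithZero.exp_log hx]
  rw [hm, ← WithZero.exp_add] at hn
  have := WithZero.exp_injective hn
  omega

theorem main (hshare : S_SHARE) (hcr2 : S_CR2') : S_MAIN := by
  intro F _ _
  obtain ⟨y0, hy0⟩ := hshare F
  refine ⟨y0, fun y hy I c hI hloc d0 hd0 ε hε => ?_⟩
  obtain ⟨k0, hk0⟩ := hy0 y hy (AI I) c hloc (-d0) (neg_ne_zero.mpr hd0) ε hε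
  refine ⟨max k0 1, fun k hk => nest_mono k _ _ (fun X hX => ?_) (hk0 k (le_trans (le_max_left _ _) hk))⟩
  have hk1 : 1 ≤ k := le_trans (le_max_right _ _) hk
  obtain ⟨hfin, hpos, hN⟩ := hX
  have hset : {q ∈ (Box y X : Set (Fin k → HeightOneSpectrum (𝓞 F))) | ∃ D, Fits y (-d0) q D} =
      {q ∈ (Box y X : Set (Fin k → HeightOneSpectrum (𝓞 F))) | ∃ d, Fits y d0 q d} := by
    ext q
    simp only [Set.mem_setOf_eq, fits_neg_iff]
  rw [hset] at hpos
  refine ⟨hfin, hpos, fun s t ht hs => ?_⟩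
  have h1 : 1 ≤ 2 ^ t - 1 := by
    have : 2 ^ 1 ≤ 2 ^ t := Nat.pow_le_pow_right (by norm_num) ht
    omega
  have h2 := hN (2 ^ t - 1) h1
  rw [hset] at h2
  have h3 : ((2 ^ t - 1 : ℕ) : ℝ) = 2 ^ t - 1 := by
    rw [Nat.cast_sub (Nat.one_le_two_pow)]
    simp
  rw [h3] at h2
  refine le_trans ?_ h2
  have h4 : {q ∈ (Box y X : Set (Fin k → HeightOneSpectrum (𝓞 F))) | ∃ d, Fits y d0 q d ∧
          ∃ (L : Type) (_ : Field L) (_ : NumberField L) (_ : Algebra F L),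
            Quad F L d ∧ Df L (I.map (algebraMap (𝓞 F) (𝓞 L))) (s + t)} ⊆
      {q ∈ (Box y X : Set (Fin k → HeightOneSpectrum (𝓞 F))) | ∃ D, Fits y (-d0) q D ∧
        Many (AI I) D (2 ^ t - 1)} := by
    rintro q ⟨hq, d, hd, L, iL1, iL2, iL3, hquad, hdf⟩
    have hnsq : ¬ IsSquare d :=
      not_od_sq (q ⟨0, hk1⟩) ((hd.ram _ (hq.2 ⟨0, hk1⟩).1).mpr ⟨_, rfl⟩)
    exact ⟨hq, -d, fits_neg hd, hcr2 F L d hquad hnsq I hI s t hs hdf⟩
  exact_mod_cast Set.ncard_le_ncard h4 (hfin.subset (fun q hq => hq.1))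

end Pool.Agent.Q283.LQ
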