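import Pool.Agent.Q283.LQ.Stm

/-!
# Project LQ (helper283): corrected statements of the jobs CR2L and CR2

`S_CR2L` and `S_CR2` of `Stm.lean` lack the hypothesis that `d` is not a square of `F` (without it the condition
`Quad F L d` does not say that `L = F(√d)`).  The corrected forms are `S_CR2L'` and `S_CR2'`.
-/

set_option autoImplicit false

namespace Pool.Agent.Q283.LQ

open NumberField IsDedekindDomain Filter Topology Finset

/-- JOB CR2L, corrected: `d` is not a square -/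
def S_CR2L' : Prop := ∀ (F L : Type) [Field F] [NumberField F] [Field L] [NumberField L] [Algebra F L] (d : F),
  Quad F L d → ¬ IsSquare d → ∀ I : Ideal (𝓞 F), (2 : 𝓞 F) ∈ I → ∀ v : HeightOneSpectrum (𝓞 F), I ≤ v.asIdeal →
  ∀ (w : (𝓞 L)ˣ) (M : ℕ), 0 < M →
  Algebra.norm F ((w : 𝓞 L) : L) = 1 → w ≠ -1 →
  (∀ N : ℕ, ∃ η : (𝓞 L)ˣ, Algebra.norm F ((η : 𝓞 L) : L) = 1 ∧
      (((w * η ^ 2) ^ M : (𝓞 L)ˣ) : 𝓞 L) - 1 ∈ I.map (algebraMap (𝓞 F) (𝓞 L)) ^ N) →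
  AT v (-d) (2 + Algebra.trace F L ((w : 𝓞 L) : L))

/-- JOB CR2, corrected: `d` is not a square -/
def S_CR2' : Prop := ∀ (F L : Type) [Field F] [NumberField F] [Field L] [NumberField L] [Algebra F L] (d : F),
  Quad F L d → ¬ IsSquare d → ∀ I : Ideal (𝓞 F), (2 : 𝓞 F) ∈ I → ∀ s t : ℕ, ¬ Df F I (s + 1) →
  Df L (I.map (algebraMap (𝓞 F) (𝓞 L))) (s + t) → Many (AI I) (-d) (2 ^ t - 1)

end Pool.Agent.Q283.LQ
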